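import Pool.Agent.K4H28.SP.Fin

/-!
# The dimension of a special system is at most `(m₁ - 1)(m₂ - 1)`

Let `P 1, …, P s` be general points of the complex projective plane, with ANY multiplicities
`m₁ ≥ m₂ ≥ ⋯` and ANY degree `d`, and let `v = binom (d + 2) 2 - ∑ binom (m i + 1) 2` be the virtual
dimension plus one. The (vector space) dimension of the system is `v` or at most
`(m₁ - 1)(m₂ - 1)`, and `v < (m₁ - 1)(m₂ - 1)` if the system is special.

These bounds are optimal for all `m₁ ≥ m₂ ≥ 2`: they are attained by two points in degree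
`m₁ + m₂ - 2`.

Proof. Let `q` be a further general point, and let `I k` be the space of the binary symbols of degree
`k` which annihilate the leading forms of degree `k` at `q` of the curves of the system with
multiplicity `k` at `q`. Because the multiplicities may be moved, `I k` is acted upon by
derivations, and `S I k ⊆ I (k + 1)` for the space `S` of the linear symbols. If
`dim I (k + 1) = dim I k + 1 > 1`, then `I k` is the space of all multiples of one symbol `h`.
Moving the multiplicity of one of the points at a time to a new point gives more such symbols `h`,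
and the derivations show that they have the same degree and no common factor. Then the space
`I l` grows by at least two in every degree if one more point is added, as long as it is not the
space of all symbols.
-/

set_option autoImplicit false

namespace Pool.Agent.Results.MP_d3128a_ag.SharpSpecialBound

open MvPolynomial

/-- The forms of degree `d` with multiplicity at least `m i` at the point `(P i 0 : P i 1 : 1)`. -/
noncomputable def system {s : ℕ} (P : Fin s → Fin 2 → ℂ) (d : ℕ) (m : ℕ → ℕ) :
    Submodule ℂ (MvPolynomial (Fin 3) ℂ) :=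
  homogeneousSubmodule (Fin 3) ℂ d ⊓ Submodule.restrictScalars ℂ (⨅ i : Fin s,
    (Ideal.span ({X 0 - C (P i 0) * X 2, X 1 - C (P i 1) * X 2} :
      Set (MvPolynomial (Fin 3) ℂ))) ^ (m i))

/-- The virtual dimension plus one, for `s` points. -/
def vdimAddOne (s d : ℕ) (m : ℕ → ℕ) : ℤ :=
  ((d + 2).choose 2 : ℤ) - ∑ i ∈ Finset.range s, ((m i + 1).choose 2 : ℤ)

/-- The property holds for all `s`-tuples of points outside some hypersurface. -/
def Generally {s : ℕ} (p : (Fin s → Fin 2 → ℂ) → Prop) : Prop :=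
  ∃ F : MvPolynomial (Fin s × Fin 2) ℂ, F ≠ 0 ∧
    ∀ P : Fin s → Fin 2 → ℂ, eval (fun ij : Fin s × Fin 2 => P ij.1 ij.2) F ≠ 0 → p P

/-- The system of degree `d` for `s` general points with the multiplicities `m i`, `i < s`, is
special. -/
def IsSpecial (s d : ℕ) (m : ℕ → ℕ) : Prop :=
  ¬ Generally fun P : Fin s → Fin 2 → ℂ =>
    (Module.finrank ℂ (system P d m) : ℤ) = max (vdimAddOne s d m) 0

open Pool.Agent.K4H28.SP

theorem gen_dim (s d : ℕ) (m : ℕ → ℕ) :
    Generally fun P : Fin s → Fin 2 → ℂ =>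
      Module.finrank ℂ (system P d m) = gd (fun i : Fin s => m i) d := by
  obtain ⟨F, hF, h⟩ := gd_spec (fun i : Fin s => m i) d
  refine ⟨F.map (algebraMap ℚ ℂ), fun h0 => hF ?_, fun P hP => ?_⟩
  · exact map_injective _ (algebraMap ℚ ℂ).injective (h0.trans (map_zero _).symm)
  · rw [eval_map] at hP
    exact h ℂ P hP

theorem Generally.mono {s : ℕ} {p r : (Fin s → Fin 2 → ℂ) → Prop} (h : Generally p)
    (hpr : ∀ P, p P → r P) : Generally r := by
  obtain ⟨F, hF, h1⟩ := h
  exact ⟨F, hF, fun P hP => hpr P (h1 P hP)⟩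

theorem vdim_eq (s d : ℕ) (m : ℕ → ℕ) : vdimAddOne s d m =
    ((d + 2).choose 2 : ℤ) - ((∑ i : Fin s, (m i + 1).choose 2 : ℕ) : ℤ) := by
  unfold vdimAddOne
  rw [Nat.cast_sum, Finset.sum_range]

theorem ge_vdim (s d : ℕ) (m : ℕ → ℕ) : vdimAddOne s d m ≤ gd (fun i : Fin s => m i) d := by
  have h := gd_ge (m := fun i : Fin s => m i) (d := d)
  rw [vdim_eq]
  omega

theorem special_gd {s d : ℕ} {m : ℕ → ℕ} (h : IsSpecial s d m) :
    1 ≤ gd (fun i : Fin s => m i) d ∧ vdimAddOne s d m < gd (fun i : Fin s => m i) d := by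
  have h1 := ge_vdim s d m
  have h2 : (gd (fun i : Fin s => m i) d : ℤ) ≠ max (vdimAddOne s d m) 0 := by
    intro h3
    exact h ((gen_dim s d m).mono fun P hP => by rw [hP, h3])
  constructor
  · by_contra hcon
    apply h2
    have h3 : gd (fun i : Fin s => m i) d = 0 := by omega
    have h4 : vdimAddOne s d m ≤ 0 := by omega
    rw [h3, max_eq_right h4]
    rfl
  · by_contra hcon
    apply h2
    have h3 : (gd (fun i : Fin s => m i) d : ℤ) = vdimAddOne s d m := by omega
    rw [h3, max_eq_left]
    rw [← h3]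
    exact Int.natCast_nonneg _

theorem special_iff {s d : ℕ} {m : ℕ → ℕ} : IsSpecial s d m ↔
    (gd (fun i : Fin s => m i) d : ℤ) ≠ max (vdimAddOne s d m) 0 := by
  constructor
  · intro h h3
    exact h ((gen_dim s d m).mono fun P hP => by rw [hP, h3])
  · rintro h ⟨F, hF, h1⟩
    obtain ⟨G, hG, h2⟩ := gen_dim s d m
    obtain ⟨x, hx⟩ : ∃ x : Fin s × Fin 2 → ℂ, eval x (F * G) ≠ 0 := by
      by_contra hcon
      push Not at hcon
      exact mul_ne_zero hF hG (MvPolynomial.funext fun x => by rw [hcon x, map_zero])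
    rw [map_mul] at hx
    have e1 := h1 (fun i j => x (i, j)) (left_ne_zero_of_mul hx)
    have e2 := h2 (fun i j => x (i, j)) (right_ne_zero_of_mul hx)
    apply h
    rw [← e1, e2]

theorem pos_of_ne {s : ℕ} (h0 : 0 < s) {j : Fin s} (hj : j ≠ ⟨0, h0⟩) : 1 ≤ (j : ℕ) := by
  rw [Nat.one_le_iff_ne_zero]
  intro h
  exact hj (Fin.ext h)

theorem gd_zero_pts (d : ℕ) (m : ℕ → ℕ) :
    (gd (fun i : Fin 0 => m i) d : ℤ) = vdimAddOne 0 d m := by
  have h1 : (fun i : Fin 0 => m i) = res (fun i : Fin 0 => m i) ∅ := by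
    funext i
    exact i.elim0
  rw [h1, gd_none]
  unfold vdimAddOne
  rw [Finset.range_zero, Finset.sum_empty, sub_zero]

theorem not_special_zero (d : ℕ) (m : ℕ → ℕ) : ¬ IsSpecial 0 d m := by
  rw [special_iff, not_not, gd_zero_pts, max_eq_left]
  rw [← gd_zero_pts]
  exact Int.natCast_nonneg _

theorem upper {s : ℕ} {m : ℕ → ℕ} (hm : Antitone m) (d : ℕ) :
    (gd (fun i : Fin s => m i) d : ℤ) = vdimAddOne s d m ∨
      gd (fun i : Fin s => m i) d ≤ (m 0 - 1) * (m 1 - 1) := by
  rcases Nat.eq_zero_or_pos s with h0 | h0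
  · subst h0
    exact Or.inl (gd_zero_pts d m)
  · have h1 := gd_upper (m := fun i : Fin s => m i) (d := d) (i₀ := ⟨0, h0⟩) (b := m 1)
      (fun j hj => hm (pos_of_ne h0 hj)) (hm (Nat.zero_le 1))
    rcases h1 with h1 | h1
    · left
      rw [vdim_eq]
      omega
    · exact Or.inr h1

/-- **Main result.** General points of the complex projective plane, multiplicities
`m 0 ≥ m 1 ≥ ⋯` (with `m i = 0` for `i ≥ s`), degree `d`.

Part 1: any `s`, `m`, `d`. The dimension is the virtual one or at most `(m 0 - 1) * (m 1 - 1)`, and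
the virtual dimension of a special system is less than `(m 0 - 1) * (m 1 - 1)`.

Part 2: these bounds are attained for all `a ≥ b ≥ 2` by two points of multiplicities `a` and `b` in
degree `a + b - 2`. -/
theorem result :
    (∀ (s d : ℕ) (m : ℕ → ℕ), Antitone m → (∀ i, s ≤ i → m i = 0) →
      (Generally fun P : Fin s → Fin 2 → ℂ =>
        (Module.finrank ℂ (system P d m) : ℤ) = vdimAddOne s d m ∨
          Module.finrank ℂ (system P d m) ≤ (m 0 - 1) * (m 1 - 1)) ∧
      (IsSpecial s d m → vdimAddOne s d m < (((m 0 - 1) * (m 1 - 1) : ℕ) : ℤ))) ∧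
    (∀ a b : ℕ, 2 ≤ b → b ≤ a → ∀ m : ℕ → ℕ, m 0 = a → m 1 = b →
      IsSpecial 2 (a + b - 2) m ∧
      vdimAddOne 2 (a + b - 2) m = (((a - 1) * (b - 1) : ℕ) : ℤ) - 1 ∧
      Generally fun P : Fin 2 → Fin 2 → ℂ =>
        Module.finrank ℂ (system P (a + b - 2) m) = (a - 1) * (b - 1)) := by
  refine ⟨fun s d m hm _ => ?_, fun a b hb hba m h0 h1 => ?_⟩
  · have hup := upper (s := s) hm d
    refine ⟨(gen_dim s d m).mono fun P hP => ?_, fun hsp => ?_⟩
    · rw [hP]
      exact hup
    · obtain ⟨h2, h3⟩ := special_gd hsp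
      rcases hup with h | h
      · omega
      · refine h3.trans_le ?_
        exact_mod_cast h
  · obtain ⟨β, rfl⟩ : ∃ β, b = β + 2 := ⟨b - 2, by omega⟩
    obtain ⟨α, rfl⟩ : ∃ α, a = α + 2 := ⟨a - 2, by omega⟩
    have e1 : α + 2 + (β + 2) - 2 = α + β + 2 := by omega
    have e2 : (fun i : Fin 2 => m i) = ![α + 2, β + 2] := by
      funext i
      fin_cases i
      · exact h0
      · exact h1
    have e3 : (α + 2 - 1) * (β + 2 - 1) = (α + 1) * (β + 1) := rfl
    have h2 := gd_two α β (by omega)
    have h4 : vdimAddOne 2 (α + β + 2) m = (((α + 1) * (β + 1) : ℕ) : ℤ) - 1 := by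
      unfold vdimAddOne
      rw [Finset.sum_range_succ, Finset.sum_range_one, h0, h1]
      have hc : ∀ k : ℕ, ((k + 1).choose 2 : ℤ) * 2 = ((k : ℤ) + 1) * k := by
        intro k
        have h5 : (k + 1).choose 2 * 2 = (k + 1) * k := by
          rw [Nat.choose_two_right, Nat.add_sub_cancel]
          refine Nat.div_mul_cancel ?_
          rw [mul_comm]
          exact (Nat.even_mul_succ_self k).two_dvd
        exact_mod_cast h5
      have c1 := hc (α + 2)
      have c2 := hc (β + 2)
      have c3 := hc (α + β + 3)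
      have e5 : α + β + 2 + 2 = α + β + 3 + 1 := rfl
      rw [e5]
      push_cast at c1 c2 c3 ⊢
      linarith
    rw [e1, e3]
    refine ⟨?_, h4, ?_⟩
    · rw [special_iff, e2, h2, h4]
      intro h5
      rcases max_choice ((((α + 1) * (β + 1) : ℕ) : ℤ) - 1) 0 with h6 | h6
      · rw [h6] at h5
        omega
      · rw [h6] at h5
        have h7 : 0 < (α + 1) * (β + 1) := Nat.mul_pos (Nat.succ_pos _) (Nat.succ_pos _)
        omega
    · refine (gen_dim 2 (α + β + 2) m).mono fun P hP => ?_
      rw [hP, e2, h2]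

end Pool.Agent.Results.MP_d3128a_ag.SharpSpecialBound
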