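import Pool.Agent.K4H28.SPB.Two
import Pool.Agent.K4H28.SPB.Opt

/-!
# The superabundance of a nonempty system is at most `binom m₁ 2`

Let `P 1, …, P s` be general points of the complex projective plane, with ANY multiplicities
`m₁ ≥ m₂ ≥ ⋯` and ANY degree `d`, such that there is a curve of degree `d` with multiplicity at least
`m i` at `P i` for all `i`. Then the superabundance `h¹` (the dimension minus the virtual dimension)
of the system is at most `binom m₁ 2`. For every `m₁` this is attained, by the multiple line through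
two points (`d = m₁ = m₂`).

Proof. By `TwoLargest` the conditions of `m₃, …, m_s` are independent; let `W` be the system with these
multiplicities and `W'` the one with `m₂, …, m_s`. For a further general point `q` let `i k` and
`i' k` be the dimensions of the spaces of the binary symbols of degree `k` which annihilate the
leading forms of degree `k` at `q` of the curves of `W` and of `W'` with multiplicity `k` at `q`. Then
`h¹ = ∑ i k + ∑ i' k`, the first sum over `k < m₂` and the second over `k < m₁`. If `i k ≠ 0`, then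
`i k < i' k` if `i k ≤ k`, and moreover the annihilators for `W'` of degree `k` have no common factor
(if they had one, then moving the points one at a time in `W` would show that this factor does not
depend on the points at all, which contradicts the invariance under linear transformations). So from
the first `μ` with `i μ ≠ 0` on, the numbers `i' k` grow by at least two in each step. Since the
system with `m₁` is not empty, `i' ν ≤ ν` for some `ν ≥ m₁`. These inequalities give
`h¹ ≤ binom m₁ 2 - 2 (m₁ - μ)` if there is such a `μ < m₂`, and otherwise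
`h¹ = ∑ i' k ≤ ∑ k = binom m₁ 2`.
-/

set_option autoImplicit false

namespace Pool.Agent.Results.MP_d3128a_ag.SuperabundanceBound

open MvPolynomial

/-- The forms of degree `d` with multiplicity at least `m i` at the point `(P i 0 : P i 1 : 1)`. -/
noncomputable def system {s : ℕ} (P : Fin s → Fin 2 → ℂ) (d : ℕ) (m : ℕ → ℕ) :
    Submodule ℂ (MvPolynomial (Fin 3) ℂ) :=
  homogeneousSubmodule (Fin 3) ℂ d ⊓ Submodule.restrictScalars ℂ (⨅ i : Fin s,
    (Ideal.span ({X 0 - C (P i 0) * X 2, X 1 - C (P i 1) * X 2} :
      Set (MvPolynomial (Fin 3) ℂ))) ^ (m i))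

/-- The virtual dimension plus one, for `s` points. -/
def vdimAddOne (s d : ℕ) (m : ℕ → ℕ) : ℤ :=
  ((d + 2).choose 2 : ℤ) - ∑ i ∈ Finset.range s, ((m i + 1).choose 2 : ℤ)

/-- The property holds for all `s`-tuples of points outside some hypersurface. -/
def Generally {s : ℕ} (p : (Fin s → Fin 2 → ℂ) → Prop) : Prop :=
  ∃ F : MvPolynomial (Fin s × Fin 2) ℂ, F ≠ 0 ∧
    ∀ P : Fin s → Fin 2 → ℂ, eval (fun ij : Fin s × Fin 2 => P ij.1 ij.2) F ≠ 0 → p P

open Pool.Agent.K4H28.SP

theorem gen_dim (s d : ℕ) (m : ℕ → ℕ) :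
    Generally fun P : Fin s → Fin 2 → ℂ =>
      Module.finrank ℂ (system P d m) = gd (fun i : Fin s => m i) d := by
  obtain ⟨F, hF, h⟩ := gd_spec (fun i : Fin s => m i) d
  refine ⟨F.map (algebraMap ℚ ℂ), fun h0 => hF ?_, fun P hP => ?_⟩
  · exact map_injective _ (algebraMap ℚ ℂ).injective (h0.trans (map_zero _).symm)
  · rw [eval_map] at hP
    exact h ℂ P hP

theorem Generally.mono {s : ℕ} {p r : (Fin s → Fin 2 → ℂ) → Prop} (h : Generally p)
    (hpr : ∀ P, p P → r P) : Generally r := by
  obtain ⟨F, hF, h1⟩ := h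
  exact ⟨F, hF, fun P hP => hpr P (h1 P hP)⟩

/-- Two properties of general tuples hold simultaneously for some tuple. -/
theorem Generally.both {s : ℕ} {p r : (Fin s → Fin 2 → ℂ) → Prop} (h : Generally p)
    (h' : Generally r) : ∃ P, p P ∧ r P := by
  obtain ⟨F, hF, h1⟩ := h
  obtain ⟨G, hG, h2⟩ := h'
  obtain ⟨x, hx⟩ : ∃ x : Fin s × Fin 2 → ℂ, eval x (F * G) ≠ 0 := by
    by_contra hcon
    push Not at hcon
    exact mul_ne_zero hF hG (MvPolynomial.funext fun x => by rw [hcon x, map_zero])
  rw [map_mul] at hx
  exact ⟨fun i j => x (i, j), h1 (fun i j => x (i, j)) (left_ne_zero_of_mul hx),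
    h2 (fun i j => x (i, j)) (right_ne_zero_of_mul hx)⟩

theorem vdim_eq (s d : ℕ) (m : ℕ → ℕ) : vdimAddOne s d m =
    ((d + 2).choose 2 : ℤ) - ((∑ i : Fin s, (m i + 1).choose 2 : ℕ) : ℤ) := by
  unfold vdimAddOne
  rw [Nat.cast_sum, Finset.sum_range]

theorem ge_vdim (s d : ℕ) (m : ℕ → ℕ) : vdimAddOne s d m ≤ gd (fun i : Fin s => m i) d := by
  have h := gd_ge (m := fun i : Fin s => m i) (d := d)
  rw [vdim_eq]
  omega

theorem nonempty_gd {s d : ℕ} {m : ℕ → ℕ}
    (h : ¬ Generally fun P : Fin s → Fin 2 → ℂ => Module.finrank ℂ (system P d m) = 0) :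
    1 ≤ gd (fun i : Fin s => m i) d := by
  by_contra hcon
  exact h ((gen_dim s d m).mono fun P hP => by omega)

/-- **Main result.** General points of the complex projective plane, multiplicities
`m 0 ≥ m 1 ≥ ⋯` (with `m i = 0` for `i ≥ s`), degree `d`: if the system is not empty for general
points, then its superabundance is at most `binom (m 0) 2`. For every `k` the system of degree `k` with
two points of multiplicity `k` is not empty and has the superabundance `binom k 2`. -/
theorem result :
    (∀ (s d : ℕ) (m : ℕ → ℕ), Antitone m → (∀ i, s ≤ i → m i = 0) →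
      (¬ Generally fun P : Fin s → Fin 2 → ℂ => Module.finrank ℂ (system P d m) = 0) →
      Generally fun P : Fin s → Fin 2 → ℂ =>
        (Module.finrank ℂ (system P d m) : ℤ) - vdimAddOne s d m ≤ ((m 0).choose 2 : ℤ)) ∧
    (∀ k : ℕ,
      (¬ Generally fun P : Fin 2 → Fin 2 → ℂ =>
        Module.finrank ℂ (system P k (fun _ => k)) = 0) ∧
      Generally fun P : Fin 2 → Fin 2 → ℂ =>
        (Module.finrank ℂ (system P k (fun _ => k)) : ℤ) - vdimAddOne 2 k (fun _ => k) =
          (k.choose 2 : ℤ)) := by
  refine ⟨fun s d m hm _ hne => ?_, fun k => ?_⟩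
  · obtain ⟨-, h2⟩ := gd_two_largest hm (nonempty_gd hne)
    refine (gen_dim s d m).mono fun P hP => ?_
    rw [hP, vdim_eq]
    have h3 : (gd (fun i : Fin s => m i) d : ℤ) + ((∑ i : Fin s, (m i + 1).choose 2 : ℕ) : ℤ) ≤
        ((d + 2).choose 2 : ℤ) + ((m 0).choose 2 : ℤ) := by exact_mod_cast h2
    linarith
  · have h1 := gd_line k
    refine ⟨fun h => ?_, ?_⟩
    · obtain ⟨P, h2, h3⟩ := h.both (gen_dim 2 k (fun _ => k))
      omega
    · obtain ⟨-, h2⟩ := gd_two_largest (s := 2) (d := k) (m := fun _ => k) (fun _ _ _ => le_rfl) h1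
      refine (gen_dim 2 k (fun _ => k)).mono fun P hP => ?_
      rw [hP, vdim_eq, Fin.sum_univ_two]
      rw [Fin.sum_univ_two] at h2
      have hc : ∀ j : ℕ, 2 * (j + 1).choose 2 = (j + 1) * j := fun j => two_choose j
      have c1 := hc k
      have c2 := hc (k + 1)
      have c3 : 2 * k.choose 2 + 2 * k = (k + 1) * k := by
        rcases Nat.eq_zero_or_pos k with h0 | h0
        · subst h0
          rfl
        · obtain ⟨j, rfl⟩ : ∃ j, k = j + 1 := ⟨k - 1, by omega⟩
          have := hc j
          nlinarith
      have e1 : k + 1 + 1 = k + 2 := rfl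
      rw [e1] at c2
      have h3 : (k + 2).choose 2 + k.choose 2 ≤
          gd (fun _ : Fin 2 => k) k + ((k + 1).choose 2 + (k + 1).choose 2) := by nlinarith
      omega

end Pool.Agent.Results.MP_d3128a_ag.SuperabundanceBound
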