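import Pool.Agent.K4H28.SP.Nine

/-!
# The range of Q1: the dimension of a special system is at most `(m₁ - 1)(m₁₀ - 1)`

Let `P 1, …, P s` be general points of the complex projective plane, with ANY multiplicities
`m₁ ≥ m₂ ≥ ⋯`, and let `d ≥ m₁ + m₂ + m₃` (the range of Q1). Let
`v = binom (d + 2) 2 - ∑ binom (m i + 1) 2` be the virtual dimension plus one. The (vector space)
dimension of the system is `v` or at most `(m₁ - 1)(m₁₀ - 1)`, and `v < (m₁ - 1)(m₁₀ - 1)` if the
system is special.

Proof. The nine largest multiplicities impose independent conditions. Let `q` be a further general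
point, and let `I k` be the space of the binary symbols of degree `k` which annihilate the leading
forms of degree `k` at `q` of the curves of the system with multiplicity `k` at `q`. Because the
multiplicities may be moved, `I k` is acted upon by derivations, and `S I k ⊆ I (k + 1)` for the
space `S` of the linear symbols. If `dim I (k + 1) = dim I k + 1 > 1`, then `I k` is the space of all
multiples of one symbol `h`. Moving the multiplicity of one of the points at a time to a new point
gives more such symbols `h`, and the derivations show that they have the same degree and no common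
factor. Then the space `I l` grows by at least two in every degree if one more point is added, as
long as it is not the space of all symbols. This bounds the dimension of the first special system if
the points are added one after the other.
-/

set_option autoImplicit false

namespace Pool.Agent.Results.MP_d3128a_ag.TenthMultiplicity

open MvPolynomial

/-- The forms of degree `d` with multiplicity at least `m i` at the point `(P i 0 : P i 1 : 1)`. -/
noncomputable def system {s : ℕ} (P : Fin s → Fin 2 → ℂ) (d : ℕ) (m : ℕ → ℕ) :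
    Submodule ℂ (MvPolynomial (Fin 3) ℂ) :=
  homogeneousSubmodule (Fin 3) ℂ d ⊓ Submodule.restrictScalars ℂ (⨅ i : Fin s,
    (Ideal.span ({X 0 - C (P i 0) * X 2, X 1 - C (P i 1) * X 2} :
      Set (MvPolynomial (Fin 3) ℂ))) ^ (m i))

/-- The virtual dimension plus one, for `s` points. -/
def vdimAddOne (s d : ℕ) (m : ℕ → ℕ) : ℤ :=
  ((d + 2).choose 2 : ℤ) - ∑ i ∈ Finset.range s, ((m i + 1).choose 2 : ℤ)

/-- The property holds for all `s`-tuples of points outside some hypersurface. -/
def Generally {s : ℕ} (p : (Fin s → Fin 2 → ℂ) → Prop) : Prop :=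
  ∃ F : MvPolynomial (Fin s × Fin 2) ℂ, F ≠ 0 ∧
    ∀ P : Fin s → Fin 2 → ℂ, eval (fun ij : Fin s × Fin 2 => P ij.1 ij.2) F ≠ 0 → p P

/-- The system of degree `d` for `s` general points with the multiplicities `m i`, `i < s`, is
special. -/
def IsSpecial (s d : ℕ) (m : ℕ → ℕ) : Prop :=
  ¬ Generally fun P : Fin s → Fin 2 → ℂ =>
    (Module.finrank ℂ (system P d m) : ℤ) = max (vdimAddOne s d m) 0

open Pool.Agent.K4H28.SP

theorem gen_dim (s d : ℕ) (m : ℕ → ℕ) :
    Generally fun P : Fin s → Fin 2 → ℂ =>
      Module.finrank ℂ (system P d m) = gd (fun i : Fin s => m i) d := by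
  obtain ⟨F, hF, h⟩ := gd_spec (fun i : Fin s => m i) d
  refine ⟨F.map (algebraMap ℚ ℂ), fun h0 => hF ?_, fun P hP => ?_⟩
  · exact map_injective _ (algebraMap ℚ ℂ).injective (h0.trans (map_zero _).symm)
  · rw [eval_map] at hP
    exact h ℂ P hP

theorem Generally.mono {s : ℕ} {p r : (Fin s → Fin 2 → ℂ) → Prop} (h : Generally p)
    (hpr : ∀ P, p P → r P) : Generally r := by
  obtain ⟨F, hF, h1⟩ := h
  exact ⟨F, hF, fun P hP => hpr P (h1 P hP)⟩

theorem vdim_eq (s d : ℕ) (m : ℕ → ℕ) : vdimAddOne s d m =
    ((d + 2).choose 2 : ℤ) - ((∑ i : Fin s, (m i + 1).choose 2 : ℕ) : ℤ) := by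
  unfold vdimAddOne
  rw [Nat.cast_sum, Finset.sum_range]

theorem ge_vdim (s d : ℕ) (m : ℕ → ℕ) : vdimAddOne s d m ≤ gd (fun i : Fin s => m i) d := by
  have h := gd_ge (m := fun i : Fin s => m i) (d := d)
  rw [vdim_eq]
  omega

theorem special_gd {s d : ℕ} {m : ℕ → ℕ} (h : IsSpecial s d m) :
    1 ≤ gd (fun i : Fin s => m i) d ∧ vdimAddOne s d m < gd (fun i : Fin s => m i) d := by
  have h1 := ge_vdim s d m
  have h2 : (gd (fun i : Fin s => m i) d : ℤ) ≠ max (vdimAddOne s d m) 0 := by
    intro h3
    exact h ((gen_dim s d m).mono fun P hP => by rw [hP, h3])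
  constructor
  · by_contra hcon
    apply h2
    have h3 : gd (fun i : Fin s => m i) d = 0 := by omega
    have h4 : vdimAddOne s d m ≤ 0 := by omega
    rw [h3, max_eq_right h4]
    rfl
  · by_contra hcon
    apply h2
    have h3 : (gd (fun i : Fin s => m i) d : ℤ) = vdimAddOne s d m := by omega
    rw [h3, max_eq_left]
    rw [← h3]
    exact Int.natCast_nonneg _

theorem upper9 {s d : ℕ} {m : ℕ → ℕ} (hm : Antitone m) (hd : m 0 + m 1 + m 2 ≤ d) :
    (gd (fun i : Fin s => m i) d : ℤ) = vdimAddOne s d m ∨
      gd (fun i : Fin s => m i) d ≤ (m 0 - 1) * (m 9 - 1) := by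
  classical
  have h3 : ∀ i j k : ℕ, i ≠ j → i ≠ k → j ≠ k → m i + m j + m k ≤ d := by
    have key : ∀ i j k : ℕ, i < j → j < k → m i + m j + m k ≤ d := by
      intro i j k h1 h2
      have e0 := hm (Nat.zero_le i)
      have e1 := hm (show 1 ≤ j by omega)
      have e2 := hm (show 2 ≤ k by omega)
      omega
    intro i j k h1 h2 h4
    rcases Nat.lt_or_gt_of_ne h1 with a1 | a1 <;> rcases Nat.lt_or_gt_of_ne h2 with a2 | a2 <;>
      rcases Nat.lt_or_gt_of_ne h4 with a3 | a3
    · have := key i j k a1 a3
      omega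
    · have := key i k j a2 a3
      omega
    · omega
    · have := key k i j a2 a1
      omega
    · have := key j i k a1 a2
      omega
    · omega
    · have := key j k i a3 a2
      omega
    · have := key k j i a3 a1
      omega
  have hred : Red3 d (fun i : Fin s => m i) := by
    refine ⟨fun i => ?_, fun i j hij => ?_, fun i j k hij hik hjk => ?_⟩
    · have e0 := hm (Nat.zero_le (i : ℕ))
      change m i ≤ d
      omega
    · have h4 : (i : ℕ) ≠ (j : ℕ) := fun h => hij (Fin.ext h)
      obtain ⟨k, hk1, hk2⟩ : ∃ k : ℕ, (i : ℕ) ≠ k ∧ (j : ℕ) ≠ k :=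
        ⟨(i : ℕ) + (j : ℕ) + 1, by omega, by omega⟩
      have := h3 i j k h4 hk1 hk2
      change m i + m j ≤ d
      omega
    · exact h3 i j k (fun h => hij (Fin.ext h)) (fun h => hik (Fin.ext h))
        (fun h => hjk (Fin.ext h))
  have h1 := gd_upper9 (m := fun i : Fin s => m i) (d := d) hred
    (T := Finset.univ.filter fun i : Fin s => (i : ℕ) < 9) (by
      have h4 : (Finset.univ.filter fun i : Fin s => (i : ℕ) < 9).image Fin.val ⊆
          Finset.range 9 := by
        intro x hx
        rw [Finset.mem_image] at hx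
        obtain ⟨i, hi, rfl⟩ := hx
        exact Finset.mem_range.2 (Finset.mem_filter.1 hi).2
      have h5 := Finset.card_le_card h4
      rwa [Finset.card_image_of_injective _ Fin.val_injective, Finset.card_range] at h5)
    (A := m 0) (b := m 9) (fun j _ => hm (Nat.zero_le _)) (fun j hj => by
      refine hm ?_
      by_contra hcon
      exact hj (Finset.mem_filter.2 ⟨Finset.mem_univ _, by omega⟩)) (hm (Nat.zero_le 9))
  rcases h1 with h1 | h1
  · left
    rw [vdim_eq]
    omega
  · exact Or.inr h1

/-- **Main result.** General points of the complex projective plane, multiplicities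
`m 0 ≥ m 1 ≥ ⋯` (with `m i = 0` for `i ≥ s`), degree `d ≥ m 0 + m 1 + m 2`. The dimension is the
virtual one or at most `(m 0 - 1) * (m 9 - 1)`, and the virtual dimension of a special system is less
than `(m 0 - 1) * (m 9 - 1)`. -/
theorem result (s d : ℕ) (m : ℕ → ℕ) (hm : Antitone m) (_hs : ∀ i, s ≤ i → m i = 0)
    (hd : m 0 + m 1 + m 2 ≤ d) :
    (Generally fun P : Fin s → Fin 2 → ℂ =>
      (Module.finrank ℂ (system P d m) : ℤ) = vdimAddOne s d m ∨
        Module.finrank ℂ (system P d m) ≤ (m 0 - 1) * (m 9 - 1)) ∧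
    (IsSpecial s d m → vdimAddOne s d m < (((m 0 - 1) * (m 9 - 1) : ℕ) : ℤ)) := by
  have hup9 := upper9 (s := s) hm hd
  refine ⟨(gen_dim s d m).mono fun P hP => ?_, fun hsp => ?_⟩
  · rw [hP]
    exact hup9
  · obtain ⟨h2, h3⟩ := special_gd hsp
    rcases hup9 with h | h
    · omega
    · refine h3.trans_le ?_
      exact_mod_cast h

end Pool.Agent.Results.MP_d3128a_ag.TenthMultiplicity
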