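import Pool.Agent.K4H28.SPB.Three
import Pool.Agent.K4H28.SPB.Opt3

/-!
# Nonempty systems: only the two largest multiplicities can impose dependent conditions

Let `P 1, …, P s` be general points of the complex projective plane, with ANY multiplicities
`m₁ ≥ m₂ ≥ ⋯` and ANY degree `d`, such that there is a curve of degree `d` with multiplicity at least
`m i` at `P i` for all `i`. Then

* the multiplicities `m₃, …, m_s` impose independent conditions on the curves of degree `d`;
* the superabundance of the system with the multiplicities `m₂, m₃, …, m_s` is at most `binom c 2`,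
  where `c` is the integral part of `(m₂ + m₃ - m₁) / 2` (and `c = 0` if this is negative). So they
  impose independent conditions, too, if `m₁ ≥ m₂ + m₃ - 3`.

In particular, if all the multiplicities are equal to `k`, then for every degree at most two numbers
of points, which are consecutive, are possible for a special system. The example `d = 6`, `k = 4`,
where two and three points give special systems (the curves with three points are the double
triangles), shows that the number two is optimal. The bound for the superabundance is optimal for all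
`m₁ ≥ m₂ ≥ m₃` with `m₁ ≤ m₂ + m₃`, by three points in degree `m₂ + m₃ - c` (the union of the three
lines, with multiplicities).

Proof. Let `q` be a further general point, and let `i l` be the dimension of the annihilator of the
space of the leading forms at `q`, of degree `l`, of the curves of the system with the
multiplicities `m₃, m₄, …` which have multiplicity `l` at `q`. Let the points of multiplicities `m₁`
and `m₂` collide at `q` along a general line. A curve of the limit system has at `q` a leading form
of some degree `l ≥ m₁`, which is divisible by the `(m₁ + m₂ - l)`-th power of the equation of the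
line. But a space of binary forms of dimension at most `e` contains no form divisible by the `e`-th
power of the equation of a general line. So `i l + m₁ + m₂ ≤ 2 l` for some `l` for which the forms of
degree `l` occur. If the system with the multiplicities `m₄, m₅, …` has `i l' ≠ 0` for an `l' < l`,
then `i` grows by at least two in each step from `l'` on (see `SuperabundanceBound`), so `l'` can be
taken instead of `l`. Hence we may suppose that the multiplicities `l` (at `q`) and `m₄, m₅, …` impose
independent conditions. Then `i 0 + ⋯ + i (l - 1)` is the superabundance of the nonempty system with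
the multiplicities `l, m₃, m₄, …`, which is at most `binom m₃ 2`, since adding the point of
multiplicity `m₃` to the others gives at most `k` dependent conditions in each degree `k < m₃`. As `i`
grows by at least one in each step once it is not zero, the bound for `i 0 + ⋯ + i (m₂ - 1)` follows.
-/

set_option autoImplicit false

namespace Pool.Agent.Results.MP_d3128a_ag.TwoLargest

open MvPolynomial

/-- The forms of degree `d` with multiplicity at least `m i` at the point `(P i 0 : P i 1 : 1)`. -/
noncomputable def system {s : ℕ} (P : Fin s → Fin 2 → ℂ) (d : ℕ) (m : ℕ → ℕ) :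
    Submodule ℂ (MvPolynomial (Fin 3) ℂ) :=
  homogeneousSubmodule (Fin 3) ℂ d ⊓ Submodule.restrictScalars ℂ (⨅ i : Fin s,
    (Ideal.span ({X 0 - C (P i 0) * X 2, X 1 - C (P i 1) * X 2} :
      Set (MvPolynomial (Fin 3) ℂ))) ^ (m i))

/-- The virtual dimension plus one, for `s` points. -/
def vdimAddOne (s d : ℕ) (m : ℕ → ℕ) : ℤ :=
  ((d + 2).choose 2 : ℤ) - ∑ i ∈ Finset.range s, ((m i + 1).choose 2 : ℤ)

/-- The property holds for all `s`-tuples of points outside some hypersurface. -/
def Generally {s : ℕ} (p : (Fin s → Fin 2 → ℂ) → Prop) : Prop :=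
  ∃ F : MvPolynomial (Fin s × Fin 2) ℂ, F ≠ 0 ∧
    ∀ P : Fin s → Fin 2 → ℂ, eval (fun ij : Fin s × Fin 2 => P ij.1 ij.2) F ≠ 0 → p P

/-- The system of degree `d` for `s` general points with the multiplicities `m i`, `i < s`, is
special. -/
def IsSpecial (s d : ℕ) (m : ℕ → ℕ) : Prop :=
  ¬ Generally fun P : Fin s → Fin 2 → ℂ =>
    (Module.finrank ℂ (system P d m) : ℤ) = max (vdimAddOne s d m) 0

open Pool.Agent.K4H28.SP

theorem gen_dim (s d : ℕ) (m : ℕ → ℕ) :
    Generally fun P : Fin s → Fin 2 → ℂ =>
      Module.finrank ℂ (system P d m) = gd (fun i : Fin s => m i) d := by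
  obtain ⟨F, hF, h⟩ := gd_spec (fun i : Fin s => m i) d
  refine ⟨F.map (algebraMap ℚ ℂ), fun h0 => hF ?_, fun P hP => ?_⟩
  · exact map_injective _ (algebraMap ℚ ℂ).injective (h0.trans (map_zero _).symm)
  · rw [eval_map] at hP
    exact h ℂ P hP

theorem Generally.mono {s : ℕ} {p r : (Fin s → Fin 2 → ℂ) → Prop} (h : Generally p)
    (hpr : ∀ P, p P → r P) : Generally r := by
  obtain ⟨F, hF, h1⟩ := h
  exact ⟨F, hF, fun P hP => hpr P (h1 P hP)⟩

/-- Two properties of general tuples hold simultaneously for some tuple. -/
theorem Generally.both {s : ℕ} {p r : (Fin s → Fin 2 → ℂ) → Prop} (h : Generally p)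
    (h' : Generally r) : ∃ P, p P ∧ r P := by
  obtain ⟨F, hF, h1⟩ := h
  obtain ⟨G, hG, h2⟩ := h'
  obtain ⟨x, hx⟩ : ∃ x : Fin s × Fin 2 → ℂ, eval x (F * G) ≠ 0 := by
    by_contra hcon
    push Not at hcon
    exact mul_ne_zero hF hG (MvPolynomial.funext fun x => by rw [hcon x, map_zero])
  rw [map_mul] at hx
  exact ⟨fun i j => x (i, j), h1 (fun i j => x (i, j)) (left_ne_zero_of_mul hx),
    h2 (fun i j => x (i, j)) (right_ne_zero_of_mul hx)⟩

theorem vdim_eq (s d : ℕ) (m : ℕ → ℕ) : vdimAddOne s d m =
    ((d + 2).choose 2 : ℤ) - ((∑ i : Fin s, (m i + 1).choose 2 : ℕ) : ℤ) := by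
  unfold vdimAddOne
  rw [Nat.cast_sum, Finset.sum_range]

theorem ge_vdim (s d : ℕ) (m : ℕ → ℕ) : vdimAddOne s d m ≤ gd (fun i : Fin s => m i) d := by
  have h := gd_ge (m := fun i : Fin s => m i) (d := d)
  rw [vdim_eq]
  omega

theorem nonempty_gd {s d : ℕ} {m : ℕ → ℕ}
    (h : ¬ Generally fun P : Fin s → Fin 2 → ℂ => Module.finrank ℂ (system P d m) = 0) :
    1 ≤ gd (fun i : Fin s => m i) d := by
  by_contra hcon
  exact h ((gen_dim s d m).mono fun P hP => by omega)

theorem special_of {s d : ℕ} {m : ℕ → ℕ}
    (h : (gd (fun i : Fin s => m i) d : ℤ) ≠ max (vdimAddOne s d m) 0) : IsSpecial s d m := by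
  intro h1
  obtain ⟨P, h2, h3⟩ := h1.both (gen_dim s d m)
  apply h
  rw [← h2, ← h3]

theorem special_gd {s d : ℕ} {m : ℕ → ℕ} (h : IsSpecial s d m) :
    1 ≤ gd (fun i : Fin s => m i) d ∧ vdimAddOne s d m < gd (fun i : Fin s => m i) d := by
  have h1 := ge_vdim s d m
  have h2 : (gd (fun i : Fin s => m i) d : ℤ) ≠ max (vdimAddOne s d m) 0 := by
    intro h3
    exact h ((gen_dim s d m).mono fun P hP => by rw [hP, h3])
  constructor
  · by_contra hcon
    apply h2
    have h3 : gd (fun i : Fin s => m i) d = 0 := by omega
    have h4 : vdimAddOne s d m ≤ 0 := by omega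
    rw [h3, max_eq_right h4]
    rfl
  · by_contra hcon
    apply h2
    have h3 : (gd (fun i : Fin s => m i) d : ℤ) = vdimAddOne s d m := by omega
    rw [h3, max_eq_left]
    rw [← h3]
    exact Int.natCast_nonneg _

/-- Three multiplicities. -/
def three (a b c : ℕ) : ℕ → ℕ := fun i => if i = 0 then a else if i = 1 then b else
  if i = 2 then c else 0

theorem three_anti {a b c : ℕ} (hcb : c ≤ b) (hba : b ≤ a) : Antitone (three a b c) := by
  refine antitone_nat_of_succ_le fun n => ?_
  match n with
  | 0 => exact hba
  | 1 => exact hcb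
  | n + 2 => exact Nat.zero_le _

/-- The number `c` of the bound: the integral part of `(m₂ + m₃ - m₁) / 2`, or zero if this is
negative. -/
def excess (m : ℕ → ℕ) : ℕ := (m 1 + m 2 - m 0) / 2

theorem not_generally {s d : ℕ} {m : ℕ → ℕ} (h : 1 ≤ gd (fun i : Fin s => m i) d) :
    ¬ Generally fun P : Fin s → Fin 2 → ℂ => Module.finrank ℂ (system P d m) = 0 := by
  intro h1
  obtain ⟨P, h2, h3⟩ := h1.both (gen_dim s d m)
  omega

/-- **Main result.** General points of the complex projective plane, multiplicities
`m 0 ≥ m 1 ≥ ⋯` (with `m i = 0` for `i ≥ s`), degree `d`.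

Part 1: if the system is not empty for general points, then the system with the multiplicities
`m 2, …, m (s - 1)` has the virtual dimension, and the superabundance of the system with the
multiplicities `m 1, …, m (s - 1)` is at most `binom c 2`, where `c` is the integral part of
`(m 1 + m 2 - m 0) / 2`, or zero if this is negative.

Part 2: for all `k` and `d`, the systems of degree `d` with `s` points of multiplicity `k` are
special for at most two numbers `s`, which are consecutive.

Part 3: the number two is optimal in both parts, since the systems of degree 6 with two and with three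
points of multiplicity 4 are special. The bound `binom c 2` is optimal: for all `a ≥ b ≥ c'` with
`a ≤ b + c'` there is a degree `d` such that the system with three points of these multiplicities is
not empty, and the system without the first point has the superabundance `binom c 2`. -/
theorem result :
    (∀ (s d : ℕ) (m : ℕ → ℕ), Antitone m → (∀ i, s ≤ i → m i = 0) →
      (¬ Generally fun P : Fin s → Fin 2 → ℂ => Module.finrank ℂ (system P d m) = 0) →
      (Generally fun P : Fin (s - 2) → Fin 2 → ℂ =>
        (Module.finrank ℂ (system P d (fun i => m (i + 2))) : ℤ) =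
          vdimAddOne (s - 2) d (fun i => m (i + 2))) ∧
      Generally fun P : Fin (s - 1) → Fin 2 → ℂ =>
        (Module.finrank ℂ (system P d (fun i => m (i + 1))) : ℤ) ≤
          vdimAddOne (s - 1) d (fun i => m (i + 1)) + (excess m).choose 2) ∧
    (∀ k d : ℕ, ∃ s₀ : ℕ, ∀ s : ℕ, IsSpecial s d (fun _ => k) → s = s₀ ∨ s = s₀ + 1) ∧
    (IsSpecial 2 6 (fun _ => 4) ∧ IsSpecial 3 6 (fun _ => 4)) ∧
    (∀ a b c : ℕ, c ≤ b → b ≤ a → a ≤ b + c → ∃ d : ℕ,
      (¬ Generally fun P : Fin 3 → Fin 2 → ℂ =>
        Module.finrank ℂ (system P d (three a b c)) = 0) ∧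
      Generally fun P : Fin 2 → Fin 2 → ℂ =>
        (Module.finrank ℂ (system P d (fun i => three a b c (i + 1))) : ℤ) =
          vdimAddOne 2 d (fun i => three a b c (i + 1)) + (excess (three a b c)).choose 2) := by
  refine ⟨fun s d m hm _ hne => ⟨?_, ?_⟩, fun k d => ?_, ⟨?_, ?_⟩, fun a b c hcb hba hab => ?_⟩
  · obtain ⟨h1, -⟩ := gd_two_largest hm (nonempty_gd hne)
    refine (gen_dim (s - 2) d (fun i => m (i + 2))).mono fun P hP => ?_
    rw [hP, vdim_eq]
    have h3 := h1 2 le_rfl
    omega
  · have h1 := gd_without_largest hm (nonempty_gd hne)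
    refine (gen_dim (s - 1) d (fun i => m (i + 1))).mono fun P hP => ?_
    rw [hP, vdim_eq]
    unfold excess
    omega
  · by_cases hex : ∃ s, IsSpecial s d (fun _ => k)
    · classical
      refine ⟨Nat.find hex, fun s hs => ?_⟩
      have hs0 := Nat.find_spec hex
      have hle := Nat.find_min' hex hs
      set s₀ := Nat.find hex
      by_contra hcon
      have h1 := (gd_two_largest (s := s) (d := d) (m := fun _ => k) (fun _ _ _ => le_rfl)
        (special_gd hs).1).1 (s - s₀) (by omega)
      have h2 : s - (s - s₀) = s₀ := by omega
      rw [h2] at h1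
      have h3 := (special_gd hs0).2
      rw [vdim_eq] at h3
      omega
    · exact ⟨0, fun s hs => absurd ⟨s, hs⟩ hex⟩
  · refine special_of ?_
    have h1 := gd_two 2 2 le_rfl
    have h2 : (fun _ : Fin 2 => 4) = ![2 + 2, 2 + 2] := by
      funext i
      fin_cases i <;> rfl
    have h3 : gd (fun _ : Fin 2 => 4) 6 = 9 := by
      rw [h2]
      exact h1
    rw [h3, vdim_eq]
    simp [Nat.choose]
  · refine special_of ?_
    have h1 := gd_triangle
    rw [vdim_eq]
    have h2 : (((6 + 2).choose 2 : ℕ) : ℤ) -
        ((∑ _i : Fin 3, (4 + 1).choose 2 : ℕ) : ℤ) = -2 := by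
      simp [Nat.choose]
    rw [h2]
    intro h3
    have h4 : max (-2 : ℤ) 0 = 0 := rfl
    rw [h4] at h3
    omega
  · set e := excess (three a b c) with he
    have he' : e = (b + c - a) / 2 := rfl
    have e3 : (fun i : Fin 3 => three a b c i) = ![a, b, c] := by
      funext i
      fin_cases i <;> rfl
    have e2 : (fun i : Fin 2 => three a b c (i + 1)) = ![b, c] := by
      funext i
      fin_cases i <;> rfl
    have hpos : 1 ≤ gd (fun i : Fin 3 => three a b c i) (b + c - e) := by
      rw [e3]
      exact gd_lines (by omega) (by omega) (by omega)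
    have hanti : Antitone (three a b c) := three_anti hcb hba
    refine ⟨b + c - e, not_generally hpos, ?_⟩
    have h1 := gd_without_largest hanti hpos
    have h2 := gd_two_ge (b - e) (c - e) e
    have h3 : b - e + e = b := by omega
    have h4 : c - e + e = c := by omega
    have h5 : b - e + (c - e) + e = b + c - e := by omega
    rw [h3, h4, h5] at h2
    have h6 : (three a b c 1 + three a b c 2 - three a b c 0) / 2 = e := rfl
    rw [h6] at h1
    have h7 : gd (fun i : Fin (3 - 1) => three a b c (i + 1)) (b + c - e) =
        gd ![b, c] (b + c - e) := by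
      rw [← e2]
    have h8 : ∑ i : Fin (3 - 1), (three a b c (i + 1) + 1).choose 2 =
        (b + 1).choose 2 + (c + 1).choose 2 := by
      change ∑ i : Fin 2, (three a b c (i + 1) + 1).choose 2 = _
      rw [Fin.sum_univ_two]
      rfl
    rw [h7, h8] at h1
    refine (gen_dim 2 (b + c - e) (fun i => three a b c (i + 1))).mono fun P hP => ?_
    rw [hP, vdim_eq, e2]
    have h9 : ∑ i : Fin 2, (three a b c (i + 1) + 1).choose 2 =
        (b + 1).choose 2 + (c + 1).choose 2 := h8
    rw [h9]
    omega

end Pool.Agent.Results.MP_d3128a_ag.TwoLargest
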